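import Mathlib
import Pool.Agent.H476R2.Pal.Defs

/-! `pv` gives palindromes (task T10 of helper476). -/

set_option autoImplicit false

namespace Pool.Agent.H187R2.PalT10

open Finset Pool.Agent.H476R2.Pal

/-- the digits as a function of the distance to the middle -/
def dg (L : ℕ) (m : Fin L → Fin 10) (c : ℕ) : ℕ := if h : c < L then (m ⟨c, h⟩ : ℕ) else 1

theorem dg_lt (L : ℕ) (m : Fin L → Fin 10) (c : ℕ) : dg L m c < 10 := by
  unfold dg
  split_ifs with h
  · exact (m ⟨c, h⟩).2
  · norm_num

theorem dg_L (L : ℕ) (m : Fin L → Fin 10) : dg L m L = 1 := by simp [dg]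

theorem pv_eq (L : ℕ) (hL : 1 ≤ L) (m : Fin L → Fin 10) :
    pv L m = ∑ i ∈ range (2 * L + 1), dg L m (Nat.dist i L) * 10 ^ i := by
  have h1 : ∑ c : Fin L, (m c : ℕ) * fr L c = ∑ c ∈ range L, dg L m c * fr L c := by
    rw [← Fin.sum_univ_eq_sum_range (fun c => dg L m c * fr L c) L]
    apply sum_congr rfl
    intro c _
    simp [dg, c.2]
  have h2 : 10 ^ (2 * L) + 1 = dg L m L * fr L L := by
    rw [dg_L, fr, if_neg (by omega), Nat.sub_self, one_mul, pow_zero]
    congr 2; ring
  have h3 : pv L m = ∑ c ∈ range (L + 1), dg L m c * fr L c := by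
    rw [sum_range_succ, ← h2, pv, h1]; ring
  have h4 : pv L m = dg L m 0 * 10 ^ L + (∑ c ∈ range L, dg L m (c + 1) * 10 ^ (L + 1 + c) +
      ∑ c ∈ range L, dg L m (c + 1) * 10 ^ (L - (c + 1))) := by
    rw [h3, sum_range_succ', ← sum_add_distrib, add_comm]
    congr 1
    apply sum_congr rfl
    intro c _
    rw [fr, if_neg (by omega), mul_add]
    congr 3; ring
  have h5 : ∑ c ∈ range L, dg L m (c + 1) * 10 ^ (L - (c + 1)) =
      ∑ i ∈ range L, dg L m (Nat.dist i L) * 10 ^ i := by
    rw [← sum_range_reflect (fun i => dg L m (Nat.dist i L) * 10 ^ i)]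
    apply sum_congr rfl
    intro c hc
    rw [mem_range] at hc
    have e1 : L - 1 - c = L - (c + 1) := by omega
    have e2 : Nat.dist (L - 1 - c) L = c + 1 := by
      rw [Nat.dist_eq_sub_of_le (by omega)]; omega
    rw [e2, e1]
  rw [show 2 * L + 1 = L + (L + 1) by ring, sum_range_add, h4, h5, add_comm (∑ c ∈ range L, _) _,
    add_left_comm]
  congr 1
  rw [sum_range_succ', add_comm]
  congr 1
  · apply sum_congr rfl
    intro c _
    have e2 : Nat.dist (L + (c + 1)) L = c + 1 := by
      rw [Nat.dist_eq_sub_of_le_right (by omega)]; omega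
    rw [e2]
    congr 2; ring
  · simp

theorem ofDigits_map_range (g : ℕ → ℕ) (n : ℕ) :
    Nat.ofDigits 10 ((List.range n).map g) = ∑ i ∈ range n, g i * 10 ^ i := by
  induction n with
  | zero => simp
  | succ n ih =>
    rw [List.range_succ, List.map_append, Nat.ofDigits_append, ih, sum_range_succ]
    simp [mul_comm]

theorem digits_pv (L : ℕ) (hL : 1 ≤ L) (m : Fin L → Fin 10) :
    Nat.digits 10 (pv L m) = (List.range (2 * L + 1)).map (fun i => dg L m (Nat.dist i L)) := by
  have h1 : pv L m = Nat.ofDigits 10 ((List.range (2 * L + 1)).map (fun i => dg L m (Nat.dist i L))) := by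
    rw [pv_eq L hL, ofDigits_map_range]
  rw [h1, Nat.digits_ofDigits 10 (by norm_num)]
  · intro l hl
    rw [List.mem_map] at hl
    obtain ⟨i, _, rfl⟩ := hl
    exact dg_lt _ _ _
  · intro hne
    rw [List.getLast_map, List.getLast_range]
    have : Nat.dist (2 * L + 1 - 1) L = L := by
      rw [Nat.dist_eq_sub_of_le_right (by omega)]; omega
    rw [this, dg_L]
    norm_num

/-- T10 (file T10.lean): `pv` gives palindromes -/
theorem pv_digits (L : ℕ) (hL : 1 ≤ L) (m : Fin L → Fin 10) :
    (Nat.digits 10 (pv L m)).reverse = Nat.digits 10 (pv L m) ∧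
      10 ^ (2 * L) < pv L m ∧ pv L m < 10 ^ (2 * L + 1) := by
  refine ⟨?_, ?_, ?_⟩
  · rw [digits_pv L hL]
    apply List.ext_getElem
    · simp
    · intro i h1 h2
      have h3 : i < 2 * L + 1 := by simpa using h2
      rw [List.getElem_reverse]
      simp only [List.getElem_map, List.getElem_range, List.length_map, List.length_range]
      congr 1
      unfold Nat.dist
      omega
  · unfold pv
    omega
  · have h1 := Nat.lt_base_pow_length_digits (b := 10) (m := pv L m) (by norm_num)
    rw [digits_pv L hL, List.length_map, List.length_range] at h1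
    exact h1

theorem pv_inj (L : ℕ) (hL : 1 ≤ L) : Function.Injective (pv L) := by
  intro m m' h
  have h1 : (List.range (2 * L + 1)).map (fun i => dg L m (Nat.dist i L)) =
      (List.range (2 * L + 1)).map (fun i => dg L m' (Nat.dist i L)) := by
    rw [← digits_pv L hL, ← digits_pv L hL, h]
  have h2 := List.map_inj_left.1 h1
  funext c
  have hc := c.2
  have h3 := h2 (L + c) (by rw [List.mem_range]; omega)
  have h4 : Nat.dist (L + c) L = c := by
    rw [Nat.dist_eq_sub_of_le_right (by omega)]; omega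
  rw [h4] at h3
  simp only [dg, hc, dif_pos] at h3
  exact Fin.ext h3

theorem pv_coprime (L : ℕ) (hL : 1 ≤ L) (m : Fin L → Fin 10) : (pv L m).Coprime 10 := by
  have h1 : ∃ k, pv L m = 1 + k * 10 := by
    rw [pv_eq L hL, sum_range_succ']
    have h0 : Nat.dist 0 L = L := by
      rw [Nat.dist_eq_sub_of_le (by omega)]; omega
    rw [h0, dg_L]
    refine ⟨∑ i ∈ range (2 * L), dg L m (Nat.dist (i + 1) L) * 10 ^ i, ?_⟩
    rw [sum_mul, add_comm]
    congr 1
    apply sum_congr rfl
    intro i _
    rw [pow_succ]; ring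
  obtain ⟨k, hk⟩ := h1
  rw [hk]
  simp

end Pool.Agent.H187R2.PalT10
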